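import Pool.Agent.W770.KP.Stm

set_option autoImplicit false
set_option maxHeartbeats 4000000

open scoped Classical

namespace Pool.Agent.W959.KP
open Pool.Agent.W770.KP MvPolynomial

section dh
variable {F : Type} [Field F] {m : ℕ}

theorem eval_dehom (B : MvPolynomial (Fin (m+1)) F) (y : Fin m → F) :
    eval y (dehom B) = eval (Fin.cons 1 y : Fin (m+1) → F) B := by
  unfold dehom
  rw [← MvPolynomial.coe_aeval_eq_eval, ← MvPolynomial.coe_aeval_eq_eval]
  have h : ((aeval y).comp (aeval (Fin.cons 1 (fun i => X i) :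
      Fin (m+1) → MvPolynomial (Fin m) F))) = aeval (R := F) (Fin.cons 1 y : Fin (m+1) → F) := by
    ext i
    refine Fin.cases ?_ (fun i => ?_) i
    · simp
    · simp
  exact congrArg (fun f => f B) h

theorem dehom_monomial (a : Fin (m+1) →₀ ℕ) (c : F) :
    dehom (monomial a c) = monomial a.tail c := by
  unfold dehom
  rw [aeval_monomial, Finsupp.prod_fintype _ _ (fun i => pow_zero _), Fin.prod_univ_succ]
  simp only [Fin.cons_zero, Fin.cons_succ, one_pow, one_mul]
  rw [monomial_eq (s := a.tail), Finsupp.prod_fintype _ _ (fun i => pow_zero _)]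
  simp [Finsupp.tail_apply, MvPolynomial.algebraMap_eq]

theorem dehom_sum (B : MvPolynomial (Fin (m+1)) F) :
    dehom B = ∑ a ∈ B.support, monomial a.tail (coeff a B) := by
  conv_lhs => rw [← B.support_sum_monomial_coeff]
  have : dehom (∑ a ∈ B.support, monomial a (coeff a B)) =
      ∑ a ∈ B.support, dehom (monomial a (coeff a B)) := by
    unfold dehom
    rw [map_sum]
  rw [this]
  exact Finset.sum_congr rfl fun a _ => dehom_monomial a _

theorem degree_tail (a : Fin (m+1) →₀ ℕ) : a.degree = a 0 + a.tail.degree := by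
  rw [Finsupp.degree_eq_sum, Finsupp.degree_eq_sum, Fin.sum_univ_succ]
  rfl

theorem dehom_ne {B : MvPolynomial (Fin (m+1)) F} {e : ℕ} (hB : B.IsHomogeneous e) (h : B ≠ 0) :
    dehom B ≠ 0 := by
  obtain ⟨a, ha⟩ := MvPolynomial.ne_zero_iff.1 h
  intro h0
  have h1 := congrArg (coeff a.tail) h0
  rw [dehom_sum, coeff_sum, coeff_zero] at h1
  rw [Finset.sum_eq_single a] at h1
  · rw [coeff_monomial, if_pos rfl] at h1
    exact ha h1
  · intro b hb hba
    rw [coeff_monomial, if_neg]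
    intro ht
    apply hba
    have e1 : b.degree = e := by
      have := hB (mem_support_iff.1 hb)
      rwa [Finsupp.degree_eq_weight_one]
    have e2 : a.degree = e := by
      have := hB ha
      rwa [Finsupp.degree_eq_weight_one]
    rw [degree_tail] at e1 e2
    rw [ht] at e1
    have e3 : b 0 = a 0 := by omega
    ext i
    refine Fin.cases e3 (fun i => ?_) i
    have := congrArg (fun f => f i) ht
    simpa [Finsupp.tail_apply] using this
  · intro ha'
    exact absurd (mem_support_iff.2 ha) ha'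

theorem dehom_deg (B : MvPolynomial (Fin (m+1)) F) : (dehom B).totalDegree ≤ B.totalDegree := by
  rw [dehom_sum]
  refine MvPolynomial.totalDegree_finsetSum_le fun a ha => ?_
  refine (MvPolynomial.totalDegree_monomial_le _ _).trans ?_
  have h1 : a.degree ≤ B.totalDegree := MvPolynomial.le_totalDegree ha
  have h2 := degree_tail a
  have h3 : (a.tail.sum fun _ => id) = a.tail.degree := rfl
  rw [h3]
  omega

theorem dehom_lc {ι : Type} [Fintype ι] (B : ι → MvPolynomial (Fin (m+1)) F) (c : ι → F) :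
    dehom (lc B c) = lc (fun s => dehom (B s)) c := by
  unfold lc dehom
  rw [map_sum]
  refine Finset.sum_congr rfl fun s _ => ?_
  rw [map_mul, aeval_C]
  rfl

theorem topne {n : ℕ} (Q : MvPolynomial (Fin n) F) (hQ : Q ≠ 0) :
    homogeneousComponent Q.totalDegree Q ≠ 0 := by
  obtain ⟨a, ha, hmax⟩ := Q.support.exists_max_image (fun a => a.degree)
    (MvPolynomial.support_nonempty.2 hQ)
  have h1 : Q.totalDegree ≤ a.degree := Finset.sup_le fun b hb => hmax b hb
  have h2 : a.degree ≤ Q.totalDegree := MvPolynomial.le_totalDegree ha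
  intro h0
  have h3 := congrArg (coeff a) h0
  rw [coeff_homogeneousComponent, if_pos (le_antisymm h2 h1), coeff_zero] at h3
  exact (mem_support_iff.1 ha) h3

theorem numh (E e j q : ℝ) (hj : 0 ≤ j) (hq : 0 < q) (_hE : 0 ≤ E) (he : E ≤ 2 * e) :
    E / (4 * (j+1) * q) ≤ e / (2 * (j+1) * q) := by
  have h1 : E / (4 * (j+1) * q) ≤ (2 * e) / (4 * (j+1) * q) :=
    div_le_div_of_nonneg_right he (by positivity)
  refine h1.trans (le_of_eq ?_)
  have : j + 1 ≠ 0 := by positivity
  field_simp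
  ring

end dh

theorem LB (hLL : S_LL2) (hILS : S_ILS) (hHOM : S_HOM) (hTOP : S_TOP) (hCP : S_CP)
    (hDIR : S_DIR) : S_LB := by
  intro j k hk1 hk
  refine ⟨2 * (4 * ((j:ℝ) + 1)) ^ j * ((k:ℝ) + 1) ^ k, by positivity, ?_⟩
  intro F _ _ P hP b Q hQ0 hQ E hE1 hE4 hEq
  set q := Fintype.card F with hq
  set Z := (Finset.univ : Finset (Fin (j+1) → F)).filter
          (fun y => E < cnt P (b y) (Fin.cons 1 y : Fin (j+2) → F)) with hZ
  have hqpos : 0 < q := by omega
  -- zeros on the lines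
  have hzer : ∀ R : MvPolynomial (Fin (j+2)) F,
      (∀ p ∈ P, ∀ x : Fin (j+2) → F, x - p.1 ∈ p.2 → eval x R = 0) →
      ∀ e, R.totalDegree ≤ e → e ≤ E → ∀ y ∈ Z,
        eval (Fin.cons 1 y : Fin (j+2) → F) (homogeneousComponent e R) = 0 := by
    intro R hR e he heE y hy
    refine hLL F (j+2) R e he (b y) _ ?_
    have h1 : E < cnt P (b y) (Fin.cons 1 y : Fin (j+2) → F) := (Finset.mem_filter.1 hy).2
    refine lt_of_le_of_lt heE (lt_of_lt_of_le h1 ?_)
    unfold cnt
    refine Finset.card_le_card ?_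
    intro t ht
    rw [Finset.mem_filter] at ht ⊢
    obtain ⟨p, hp, hpt⟩ := ht.2
    exact ⟨Finset.mem_univ _, hR p hp _ hpt⟩
  -- the good direction
  set d := Q.totalDegree with hd
  have hQd : homogeneousComponent d Q ≠ 0 := by
    exact topne Q hQ0
  have hdq : d < q := by omega
  obtain ⟨u, hu, hdir⟩ := hDIR F j (dehom (homogeneousComponent d Q))
    (dehom_ne (homogeneousComponent_isHomogeneous d Q) hQd) d
    ((dehom_deg _).trans (homogeneousComponent_isHomogeneous d Q).totalDegree_le) hdq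
  have hZu : ∀ y : Fin (j+1) → F,
      (Finset.univ.filter (fun t : F => y + t • u ∈ Z)).card ≤ d := by
    intro y
    refine le_trans (Finset.card_le_card ?_) (hdir y)
    intro t ht
    rw [Finset.mem_filter] at ht ⊢
    refine ⟨Finset.mem_univ _, ?_⟩
    rw [eval_dehom]
    exact hzer Q hQ d le_rfl (by omega) _ ht.2
  -- the families
  set I := (Finset.range (E + 1)).filter (fun e => E ≤ 2 * e) with hI
  have hfam : ∀ e : ℕ, ∃ (N : ℕ) (B : Fin N → MvPolynomial (Fin (j+2)) F),
      (∀ s, (B s).IsHomogeneous e) ∧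
      (e ∈ I → (Z.card : ℝ) * ((e:ℝ) / (2 * ((j:ℝ)+1) * (q : ℝ))) ^ j ≤ (N : ℝ)) ∧
      ∀ c : Fin N → F, (∀ z ∈ Z, eval (Fin.cons 1 z : Fin (j+2) → F) (lc B c) = 0) → c = 0 := by
    intro e
    by_cases he : e ∈ I
    · have h1 := Finset.mem_filter.1 he
      have h2 := Finset.mem_range.1 h1.1
      obtain ⟨N, A, hA1, hA2, hA3⟩ := hILS j F Z u hu d e (by omega) (by omega) hZu
      choose B hB1 hB2 using fun s => hHOM F (j+1) e (A s) (hA1 s)
      refine ⟨N, B, hB1, fun _ => hA2, ?_⟩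
      intro c hc
      refine hA3 c fun z hz => ?_
      have h3 := hc z hz
      rw [← eval_dehom, dehom_lc] at h3
      simpa only [hB2] using h3
    · refine ⟨0, fun s => s.elim0, fun s => s.elim0, fun h => absurd h he, ?_⟩
      intro c _
      exact Subsingleton.elim _ _
  choose N B hB1 hB2 hB3 using hfam
  have hclaim : ∑ e ∈ I, N e ≤ P.card * (E + k).choose k := by
    by_contra hcon
    push Not at hcon
    have hcard : Fintype.card ((e : I) × Fin (N (e : ℕ))) = ∑ e ∈ I, N e := by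
      rw [Fintype.card_sigma]
      simp only [Fintype.card_fin]
      exact Finset.sum_coe_sort I N
    obtain ⟨c, hc0, hc⟩ := hCP F (j+2) k E ((e : I) × Fin (N (e : ℕ)))
      (fun i => B (i.1 : ℕ) i.2) (fun i => by
        have h1 := Finset.mem_filter.1 i.1.2
        have h2 := Finset.mem_range.1 h1.1
        exact (hB1 _ _).totalDegree_le.trans (by omega)) P hP (by rw [hcard]; exact hcon)
    obtain ⟨e, he1, he2, he3⟩ := hTOP F (j+2) I N B hB1 c hc0
    apply he1
    refine hB3 e _ fun z hz => ?_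
    rw [← he3]
    have h1 := Finset.mem_filter.1 e.2
    have h2 := Finset.mem_range.1 h1.1
    exact hzer _ hc e he2 (by omega) z hz
  -- numerics
  have hEr : (1:ℝ) ≤ E := by exact_mod_cast hE1
  have hqr : (0:ℝ) < q := by exact_mod_cast hqpos
  have hIcard : (E:ℝ) / 2 ≤ I.card := by
    have h1 : Finset.Icc ((E+1)/2) E ⊆ I := by
      intro e he
      rw [Finset.mem_Icc] at he
      rw [hI, Finset.mem_filter, Finset.mem_range]
      omega
    have h2 := Finset.card_le_card h1
    rw [Nat.card_Icc] at h2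
    have h3 : E ≤ 2 * I.card := by omega
    have h4 : (E:ℝ) ≤ 2 * I.card := by exact_mod_cast h3
    linarith
  have hlow : (E:ℝ) / 2 * ((Z.card : ℝ) * ((E:ℝ) / (4 * ((j:ℝ)+1) * (q : ℝ))) ^ j) ≤
      ∑ e ∈ I, (N e : ℝ) := by
    have h1 : ∀ e ∈ I, (Z.card : ℝ) * ((E:ℝ) / (4 * ((j:ℝ)+1) * (q : ℝ))) ^ j ≤ (N e : ℝ) := by
      intro e he
      refine le_trans ?_ (hB2 e he)
      refine mul_le_mul_of_nonneg_left ?_ (by positivity)
      refine pow_le_pow_left₀ (by positivity) ?_ j
      have h2 : (E:ℝ) ≤ 2 * e := by exact_mod_cast (Finset.mem_filter.1 he).2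
      exact numh E e j q (by positivity) hqr (by positivity) h2
    have h2 := Finset.card_nsmul_le_sum I _ _ h1
    rw [nsmul_eq_mul] at h2
    refine le_trans ?_ h2
    exact mul_le_mul_of_nonneg_right hIcard (by positivity)
  have hup : ∑ e ∈ I, (N e : ℝ) ≤ (P.card : ℝ) * (((k:ℝ)+1) * E) ^ k := by
    have h1 : (∑ e ∈ I, (N e : ℝ)) ≤ ((P.card * (E + k).choose k : ℕ) : ℝ) := by
      rw [← Nat.cast_sum]
      exact_mod_cast hclaim
    refine h1.trans ?_
    rw [Nat.cast_mul]
    refine mul_le_mul_of_nonneg_left ?_ (by positivity)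
    have h2 : (E + k).choose k ≤ ((k+1) * E) ^ k := by
      refine (Nat.choose_le_pow _ _).trans (Nat.pow_le_pow_left ?_ _)
      nlinarith
    have h3 : (((E + k).choose k : ℕ) : ℝ) ≤ ((((k+1) * E) ^ k : ℕ) : ℝ) := by exact_mod_cast h2
    refine h3.trans (le_of_eq ?_)
    push_cast
    ring
  have hmain := hlow.trans hup
  have hEk : (0:ℝ) < (E:ℝ) ^ k := by positivity
  have hQ1 : (0:ℝ) < (4 * ((j:ℝ)+1) * (q : ℝ)) ^ j := by positivity
  rw [div_pow] at hmain
  have h5 : (Z.card : ℝ) * ((E:ℝ) ^ (j + 1 - k) * (E:ℝ) ^ k) ≤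
      2 * (4 * ((j:ℝ)+1) * (q : ℝ)) ^ j * ((P.card : ℝ) * (((k:ℝ)+1) * E) ^ k) := by
    rw [← pow_add, Nat.sub_add_cancel hk]
    have h6 := mul_le_mul_of_nonneg_left hmain
      (show (0:ℝ) ≤ 2 * (4 * ((j:ℝ)+1) * (q : ℝ)) ^ j by positivity)
    refine le_trans (le_of_eq ?_) h6
    rw [pow_succ]
    field_simp
  have h7 : ((Z.card : ℝ) * (E:ℝ) ^ (j + 1 - k)) * (E:ℝ) ^ k ≤
      (2 * (4 * ((j:ℝ) + 1)) ^ j * ((k:ℝ) + 1) ^ k * (P.card : ℝ) * (q : ℝ) ^ j) * (E:ℝ) ^ k := by
    refine le_trans (le_of_eq (by ring)) (h5.trans (le_of_eq ?_))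
    rw [mul_pow (((k:ℝ)+1)) (E : ℝ), mul_pow (4 * ((j:ℝ)+1)) (q : ℝ)]
    ring
  exact le_of_mul_le_mul_right h7 hEk

end Pool.Agent.W959.KP
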